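import Pool.Agent.K4H40.NS.Spec

/-! The Hilbert function of a polynomial ring modulo independent linear forms. -/

set_option autoImplicit false

namespace Pool.Agent.K4H40.NS

open MvPolynomial Module

namespace DimAux

variable {K : Type} [Field K]

instance finite_hs (n d : ℕ) : Module.Finite K (hs n K d) :=
  Module.Finite.iff_fg.2 (homogeneousSubmodule_fg (Fin n) K d)

theorem hs_eq_span (n d : ℕ) : hs n K d =
    Submodule.span K (Set.range fun e : {e : Fin n →₀ ℕ // e.degree = d} =>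
      (monomial e.1 (1 : K) : R n K)) := by
  apply le_antisymm
  · intro f hf
    rw [← MvPolynomial.support_sum_monomial_coeff f]
    refine Submodule.sum_mem _ fun e he => ?_
    have h1 : e.degree = d := by
      have h2 := hf (MvPolynomial.mem_support_iff.1 he)
      rw [Finsupp.degree_eq_weight_one]
      exact h2
    have h3 : monomial e (coeff e f) = coeff e f • (monomial e (1 : K) : R n K) := by
      rw [smul_monomial, smul_eq_mul, mul_one]
    rw [h3]
    exact Submodule.smul_mem _ _ (Submodule.subset_span ⟨⟨e, h1⟩, rfl⟩)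
  · rw [Submodule.span_le]
    rintro _ ⟨e, rfl⟩
    exact isHomogeneous_monomial (1 : K) e.2

theorem finrank_hs {n : ℕ} (d : ℕ) : finrank K (hs n K d) = (n + d - 1).choose d := by
  classical
  let eq : Sym (Fin n) d ≃ {e : Fin n →₀ ℕ // e.degree = d} :=
    (Sym.equivNatSum (Fin n) d).trans (Equiv.subtypeEquivRight fun P => Iff.rfl)
  let _ : Fintype {e : Fin n →₀ ℕ // e.degree = d} := Fintype.ofEquiv _ eq
  have hli : LinearIndependent K (fun e : {e : Fin n →₀ ℕ // e.degree = d} =>
      (monomial e.1 (1 : K) : R n K)) := by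
    have h := (basisMonomials (Fin n) K).linearIndependent.comp
      (fun e : {e : Fin n →₀ ℕ // e.degree = d} => e.1) Subtype.val_injective
    simpa [Function.comp_def] using h
  rw [hs_eq_span, finrank_span_eq_card hli, ← Fintype.card_congr eq, Sym.card_sym_eq_choose,
    Fintype.card_fin]

theorem X_mem (n : ℕ) (i : Fin n) : (X i : R n K) ∈ hs n K 1 := isHomogeneous_X K i

theorem lin_ext {n m : ℕ} (p : hs n K 1 →ₗ[K] hs m K 1) : ∀ f (hf : f ∈ hs n K 1),
    aeval (fun i => ((p ⟨X i, X_mem n i⟩ : hs m K 1) : R m K)) f = ((p ⟨f, hf⟩ : hs m K 1) : R m K) := by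
  have key : ∀ v : hs n K 1, aeval (fun i => ((p ⟨X i, X_mem n i⟩ : hs m K 1) : R m K)) (v : R n K) =
      ((p v : hs m K 1) : R m K) := by
    rintro ⟨f, hf⟩
    have hf' : f ∈ Submodule.span K (Set.range (X : Fin n → R n K)) := by
      rw [← homogeneousSubmodule_one_eq_span_X]
      exact hf
    have hle : Submodule.span K (Set.range (X : Fin n → R n K)) = hs n K 1 :=
      homogeneousSubmodule_one_eq_span_X.symm
    have : ∀ hf : f ∈ hs n K 1, aeval (fun i => ((p ⟨X i, X_mem n i⟩ : hs m K 1) : R m K)) f =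
      ((p ⟨f, hf⟩ : hs m K 1) : R m K) := by
      refine Submodule.span_induction (p := fun f _ => ∀ hf : f ∈ hs n K 1,
        aeval (fun i => ((p ⟨X i, X_mem n i⟩ : hs m K 1) : R m K)) f =
          ((p ⟨f, hf⟩ : hs m K 1) : R m K)) ?_ ?_ ?_ ?_ hf'
      · rintro _ ⟨i, rfl⟩ hi
        rw [aeval_X]
      · intro h0
        have : (⟨0, h0⟩ : hs n K 1) = 0 := rfl
        rw [this, map_zero, map_zero]
        rfl
      · intro x y hx hy ihx ihy hxy
        have hx' : x ∈ hs n K 1 := hle ▸ hx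
        have hy' : y ∈ hs n K 1 := hle ▸ hy
        have : (⟨x + y, hxy⟩ : hs n K 1) = ⟨x, hx'⟩ + ⟨y, hy'⟩ := rfl
        rw [this, map_add, map_add, ihx hx', ihy hy']
        rfl
      · intro a x hx ihx hax
        have hx' : x ∈ hs n K 1 := hle ▸ hx
        have : (⟨a • x, hax⟩ : hs n K 1) = a • ⟨x, hx'⟩ := rfl
        rw [this, map_smul, map_smul, ihx hx']
        rfl
    exact this hf
  intro f hf
  exact key ⟨f, hf⟩

theorem aeval_mem {n m d : ℕ} (g : Fin n → R m K) (hg : ∀ i, g i ∈ hs m K 1) {f : R n K}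
    (hf : f ∈ hs n K d) : aeval g f ∈ hs m K d := by
  have h := IsHomogeneous.aeval (R := K) hf g (n := 1) hg
  rwa [one_mul] at h

/-- the span -/
noncomputable def Wd {n r : ℕ} (l : Fin r → R n K) (d : ℕ) : Submodule K (R n K) :=
  Submodule.span K {p | ∃ i, ∃ f ∈ hs n K d, p = l i * f}

theorem mul_mem_Wd {n r : ℕ} (l : Fin r → R n K) (d : ℕ) {v f : R n K}
    (hv : v ∈ Submodule.span K (Set.range l)) (hf : f ∈ hs n K d) : v * f ∈ Wd l d := by
  refine Submodule.span_induction (p := fun v _ => v * f ∈ Wd l d) ?_ ?_ ?_ ?_ hv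
  · rintro _ ⟨i, rfl⟩
    exact Submodule.subset_span ⟨i, f, hf, rfl⟩
  · rw [zero_mul]
    exact Submodule.zero_mem _
  · intro x y _ _ hx hy
    rw [add_mul]
    exact Submodule.add_mem _ hx hy
  · intro a x _ hx
    rw [smul_mul_assoc]
    exact Submodule.smul_mem _ _ hx

theorem Wd_mul {n r : ℕ} (l : Fin r → R n K) (d : ℕ) {w x : R n K} (hw : w ∈ Wd l d)
    (hx : x ∈ hs n K 1) : x * w ∈ Wd l (d + 1) := by
  refine Submodule.span_induction (p := fun w _ => x * w ∈ Wd l (d + 1)) ?_ ?_ ?_ ?_ hw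
  · rintro _ ⟨i, f, hf, rfl⟩
    have h : x * (l i * f) = l i * (f * x) := by ring
    rw [h]
    exact Submodule.subset_span ⟨i, f * x, hf.mul hx, rfl⟩
  · rw [mul_zero]
    exact Submodule.zero_mem _
  · intro y z _ _ hy hz
    rw [mul_add]
    exact Submodule.add_mem _ hy hz
  · intro a y _ hy
    rw [mul_smul_comm]
    exact Submodule.smul_mem _ _ hy

theorem tele {n r : ℕ} (l : Fin r → R n K) (τ : R n K →ₐ[K] R n K)
    (h1 : ∀ v ∈ hs n K 1, τ v ∈ hs n K 1) (h2 : ∀ v ∈ hs n K 1, v - τ v ∈ Submodule.span K (Set.range l)) :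
    ∀ d : ℕ, ∀ f ∈ hs n K (d + 1), f - τ f ∈ Wd l d := by
  have hmon : ∀ d : ℕ, ∀ e : Fin n →₀ ℕ, e.degree = d + 1 →
      (monomial e (1 : K) : R n K) - τ (monomial e 1) ∈ Wd l d := by
    intro d
    induction d with
    | zero =>
      intro e he
      have h3 : (monomial e (1 : K) : R n K) ∈ hs n K 1 := isHomogeneous_monomial (1 : K) he
      have h4 := mul_mem_Wd l 0 (h2 _ h3) (f := (1 : R n K)) (isHomogeneous_one _ _)
      rwa [mul_one] at h4
    | succ d ih =>
      intro e he
      have hne : e ≠ 0 := by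
        rintro rfl
        simp at he
      obtain ⟨i, hi⟩ := Finsupp.ne_iff.1 hne
      have hi' : 1 ≤ e i := Nat.one_le_iff_ne_zero.2 hi
      have he' : e = Finsupp.single i 1 + (e - Finsupp.single i 1) := by
        rw [add_tsub_cancel_of_le]
        rwa [Finsupp.single_le_iff]
      obtain ⟨e', hee⟩ : ∃ e', e = Finsupp.single i 1 + e' := ⟨_, he'⟩
      have hdeg : e'.degree = d + 1 := by
        rw [hee, map_add, Finsupp.degree_single] at he
        omega
      have hX : (monomial e (1 : K) : R n K) = X i * monomial e' 1 := by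
        rw [hee, X, monomial_mul, one_mul]
      rw [hX, map_mul]
      have h5 : X i * monomial e' 1 - τ (X i) * τ (monomial e' 1) =
          (X i - τ (X i)) * monomial e' 1 + τ (X i) * ((monomial e' 1 : R n K) - τ (monomial e' 1)) := by
        ring
      rw [h5]
      refine Submodule.add_mem _ (mul_mem_Wd l (d + 1) (h2 _ (X_mem n i))
        (isHomogeneous_monomial (1 : K) hdeg)) ?_
      exact Wd_mul l d (ih e' hdeg) (h1 _ (X_mem n i))
  intro d f hf
  rw [hs_eq_span] at hf
  refine Submodule.span_induction (p := fun f _ => f - τ f ∈ Wd l d) ?_ ?_ ?_ ?_ hf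
  · rintro _ ⟨e, rfl⟩
    exact hmon d e.1 e.2
  · rw [map_zero, sub_zero]
    exact Submodule.zero_mem _
  · intro x y _ _ hx hy
    rw [map_add]
    have : x + y - (τ x + τ y) = (x - τ x) + (y - τ y) := by ring
    rw [this]
    exact Submodule.add_mem _ hx hy
  · intro a x _ hx
    rw [map_smul, ← smul_sub]
    exact Submodule.smul_mem _ _ hx

end DimAux

open DimAux in
theorem dim : StDIM := by
  intro n r K _ l hl hli hr d
  classical
  obtain ⟨m, hm⟩ : ∃ m, m = n - r := ⟨_, rfl⟩
  -- the subspace of the linear forms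
  let l' : Fin r → hs n K 1 := fun i => ⟨l i, hl i⟩
  have hli' : LinearIndependent K l' := by
    apply LinearIndependent.of_comp (hs n K 1).subtype
    exact hli
  let S : Submodule K (hs n K 1) := Submodule.span K (Set.range l')
  have hS : finrank K S = r := by
    have := finrank_span_eq_card hli'
    rwa [Fintype.card_fin] at this
  have hV : finrank K (hs n K 1) = n := by
    rw [finrank_hs]
    simp
  have hW : finrank K (hs m K 1) = m := by
    rw [finrank_hs]
    simp
  have hQ : finrank K (hs n K 1 ⧸ S) = finrank K (hs m K 1) := by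
    have := Submodule.finrank_quotient_add_finrank S
    omega
  let e : (hs n K 1 ⧸ S) ≃ₗ[K] hs m K 1 := LinearEquiv.ofFinrankEq _ _ hQ
  let p : hs n K 1 →ₗ[K] hs m K 1 := e.toLinearMap ∘ₗ S.mkQ
  have hp : LinearMap.range p = ⊤ := by
    rw [LinearMap.range_eq_top]
    exact e.surjective.comp (Submodule.mkQ_surjective S)
  have hker : ∀ v, p v = 0 → v ∈ S := by
    intro v hv
    have h1 : S.mkQ v = 0 := e.map_eq_zero_iff.1 hv
    rwa [Submodule.mkQ_apply, Submodule.Quotient.mk_eq_zero] at h1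
  have hker' : ∀ v ∈ S, p v = 0 := by
    intro v hv
    have h1 : S.mkQ v = 0 := by
      rwa [Submodule.mkQ_apply, Submodule.Quotient.mk_eq_zero]
    change e (S.mkQ v) = 0
    rw [h1, map_zero]
  obtain ⟨s, hs'⟩ := p.exists_rightInverse_of_surjective hp
  have hps : ∀ w, p (s w) = w := fun w => LinearMap.congr_fun hs' w
  let ψ : R n K →ₐ[K] R m K := aeval (fun i => ((p ⟨X i, X_mem n i⟩ : hs m K 1) : R m K))
  let σ : R m K →ₐ[K] R n K := aeval (fun i => ((s ⟨X i, X_mem m i⟩ : hs n K 1) : R n K))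
  have hψ : ∀ f (hf : f ∈ hs n K 1), ψ f = ((p ⟨f, hf⟩ : hs m K 1) : R m K) := lin_ext p
  have hσ : ∀ f (hf : f ∈ hs m K 1), σ f = ((s ⟨f, hf⟩ : hs n K 1) : R n K) := lin_ext s
  have hψm : ∀ d, ∀ f ∈ hs n K d, ψ f ∈ hs m K d := fun d f hf =>
    aeval_mem _ (fun i => (p ⟨X i, X_mem n i⟩).2) hf
  have hσm : ∀ d, ∀ f ∈ hs m K d, σ f ∈ hs n K d := fun d f hf =>
    aeval_mem _ (fun i => (s ⟨X i, X_mem m i⟩).2) hf
  have hψσ : ∀ g, ψ (σ g) = g := by
    have h1 : ψ.comp σ = AlgHom.id K (R m K) := by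
      apply MvPolynomial.algHom_ext
      intro j
      rw [AlgHom.comp_apply, AlgHom.id_apply, hσ _ (X_mem m j),
        hψ _ (s ⟨X j, X_mem m j⟩).2]
      have h2 := hps ⟨X j, X_mem m j⟩
      exact congrArg Subtype.val h2
    intro g
    exact DFunLike.congr_fun h1 g
  have h2 : ∀ v ∈ hs n K 1, v - (σ.comp ψ) v ∈ Submodule.span K (Set.range l) := by
    intro v hv
    rw [AlgHom.comp_apply, hψ v hv, hσ _ (p ⟨v, hv⟩).2]
    have h3 : (⟨v, hv⟩ : hs n K 1) - s (p ⟨v, hv⟩) ∈ S := by
      apply hker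
      rw [map_sub, hps, sub_self]
    have h4 : ((⟨v, hv⟩ - s (p ⟨v, hv⟩) : hs n K 1) : R n K) ∈ S.map (hs n K 1).subtype :=
      Submodule.mem_map_of_mem h3
    have h5 : S.map (hs n K 1).subtype = Submodule.span K (Set.range l) := by
      change (Submodule.span K (Set.range l')).map _ = _
      rw [Submodule.map_span, ← Set.range_comp]
      rfl
    rw [h5] at h4
    exact h4
  have h1 : ∀ v ∈ hs n K 1, (σ.comp ψ) v ∈ hs n K 1 := fun v hv => hσm 1 _ (hψm 1 v hv)
  have htele := tele l (σ.comp ψ) h1 h2 d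
  -- the map
  let Ψ : hs n K (d + 1) →ₗ[K] hs m K (d + 1) :=
    ψ.toLinearMap.restrict (fun f hf => hψm (d + 1) f hf)
  have hsurj : Function.Surjective Ψ := by
    rintro ⟨g, hg⟩
    exact ⟨⟨σ g, hσm _ g hg⟩, Subtype.ext (hψσ g)⟩
  have hkerΨ : (LinearMap.ker Ψ).map (hs n K (d + 1)).subtype = Wd l d := by
    apply le_antisymm
    · rintro _ ⟨⟨f, hf⟩, hf0, rfl⟩
      have hf1 : ψ f = 0 := congrArg Subtype.val (LinearMap.mem_ker.1 hf0)
      have hf2 := htele f hf
      rw [AlgHom.comp_apply, hf1, map_zero, sub_zero] at hf2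
      exact hf2
    · unfold Wd
      rw [Submodule.span_le]
      rintro _ ⟨i, f, hf, rfl⟩
      have hmem : l i * f ∈ hs n K (d + 1) := by
        have := (hl i).mul hf
        rwa [add_comm] at this
      refine ⟨⟨l i * f, hmem⟩, ?_, rfl⟩
      rw [SetLike.mem_coe, LinearMap.mem_ker]
      apply Subtype.ext
      change ψ (l i * f) = 0
      rw [map_mul, hψ _ (hl i)]
      have h6 : p ⟨l i, hl i⟩ = 0 := hker' _ (Submodule.subset_span ⟨i, rfl⟩)
      rw [h6]
      simp
  have hfin := LinearMap.finrank_range_add_finrank_ker Ψ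
  rw [LinearMap.range_eq_top.2 hsurj, finrank_top, finrank_hs] at hfin
  have hk2 : finrank K (LinearMap.ker Ψ) = finrank K (Wd l d) := by
    rw [← hkerΨ, Submodule.finrank_map_subtype_eq]
  rw [hk2] at hfin
  have hch : m + (d + 1) - 1 = n - r + d := by omega
  rw [hch] at hfin
  rw [← hfin, add_comm]
  rfl

end Pool.Agent.K4H40.NS
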