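import Pool.Agent.K4H72.Til.Spec

/-! Unique continuation on the triangular lattice. -/

set_option autoImplicit false

open Set

namespace Pool.Agent.K4H72.Til

/-- T11: unique continuation on the triangular lattice (lexicographically maximal point v of the support, equation at v + (1,0)) -/
theorem lattice (f : ℤ × ℤ → ℂ) (hf : (Function.support f).Finite) (c : ℂ)
    (h : ∀ v, ∑ e ∈ six, (f (v + e) - f v) = c * f v) : f = 0 := by
  by_contra hne
  have hsupp : (Function.support f).Nonempty := Function.support_nonempty_iff.2 hne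
  obtain ⟨v, hv, hmax⟩ := Set.exists_max_image (Function.support f) (fun v => toLex v) hf hsupp
  have hz : ∀ w : ℤ × ℤ, toLex v < toLex w → f w = 0 := by
    intro w hw
    by_contra h0
    exact absurd (hmax w h0) (not_le.2 hw)
  obtain ⟨a, b⟩ := v
  have h1 := h ((a, b) + (1, 0))
  have e0 : f ((a, b) + (1, 0)) = 0 := hz _ (by
    rw [Prod.Lex.toLex_lt_toLex]; left; simp)
  have e1 : f ((a, b) + (1, 0) + (1, 0)) = 0 := hz _ (by
    rw [Prod.Lex.toLex_lt_toLex]; left; simp)
  have e3 : f ((a, b) + (1, 0) + (0, 1)) = 0 := hz _ (by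
    rw [Prod.Lex.toLex_lt_toLex]; left; simp)
  have e4 : f ((a, b) + (1, 0) + (0, -1)) = 0 := hz _ (by
    rw [Prod.Lex.toLex_lt_toLex]; left; simp)
  have e5 : f ((a, b) + (1, 0) + (1, -1)) = 0 := hz _ (by
    rw [Prod.Lex.toLex_lt_toLex]; left; simp)
  have e6 : f ((a, b) + (1, 0) + (-1, 1)) = 0 := hz _ (by
    rw [Prod.Lex.toLex_lt_toLex]; right; simp)
  have e2 : f ((a, b) + (1, 0) + (-1, 0)) = f (a, b) := by
    congr 1
    ext <;> simp
  have hs : ∑ e ∈ six, (f ((a, b) + (1, 0) + e) - f ((a, b) + (1, 0))) = f (a, b) := by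
    simp only [e0, sub_zero]
    unfold six
    rw [Finset.sum_insert (by decide), Finset.sum_insert (by decide), Finset.sum_insert (by decide),
      Finset.sum_insert (by decide), Finset.sum_insert (by decide), Finset.sum_singleton,
      e1, e2, e3, e4, e5, e6]
    ring
  rw [hs, e0, mul_zero] at h1
  exact hv h1

end Pool.Agent.K4H72.Til
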